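import Pool.Agent.Lib.MP_05a445_an.Final

/-!
The Hodge theorem holds for the Laplacian of the strong maximal exterior derivative on the
Hartogs triangle.
-/

namespace Pool.Agent.Results.MP_05a445_an.HodgeStrong

open Pool.Agent.Lib.MP_05a445_an

/-- The Hodge theorem for the Laplacian of the strong maximal exterior derivative on the Hartogs
triangle, in every degree. -/
theorem result : HodgeTheorem StrongD := hodge_strong.2

end Pool.Agent.Results.MP_05a445_an.HodgeStrong
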