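import Pool.Agent.Lib.MP_05a445_an.Hodge

/-!
The Hodge theorem holds for the de Rham Laplacian (of the weak maximal exterior derivative) on
the Hartogs triangle.
-/

namespace Pool.Agent.Results.MP_05a445_an.HodgeWeak

open Pool.Agent.Lib.MP_05a445_an

/-- The Hodge theorem for the Laplacian of the weak maximal exterior derivative on the Hartogs
triangle, in every degree: closed range, and the harmonic forms represent the de Rham
cohomology. -/
theorem result : HodgeTheorem WeakD := hodge_weak

end Pool.Agent.Results.MP_05a445_an.HodgeWeak
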