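import Pool.Agent.Lib.MP_05a445_an.Final

/-!
The strong and the weak maximal exterior derivatives on the Hartogs triangle are the same
operator in every degree.
-/

namespace Pool.Agent.Results.MP_05a445_an.StrongEqWeak

open Pool.Agent.Lib.MP_05a445_an

/-- On the Hartogs triangle the strong and the weak maximal exterior derivatives are the same
operator in every degree. -/
theorem result (q : ℕ) (u : L2q q) (v : L2q (q + 1)) : StrongD q u v ↔ WeakD q u v :=
  hodge_strong.1 q u v

end Pool.Agent.Results.MP_05a445_an.StrongEqWeak
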